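import Pool.Agent.Helper20.HP.Data2
import Pool.Agent.Helper8.HP.Q5b

/-! # HOPF-Q5c: the covariant derivatives of the fibre form along the geodesics -/

open Filter Metric Module Set
open scoped Topology ContDiff RealInnerProductSpace Manifold Quaternion

namespace Pool.Agent.Helper39.HP
open Pool.Agent.Helper20.PC Pool.Agent.Helper20.HP

/-! ### jets -/

lemma hasJet_unique {f : ℝ → ℝ} {j k : J2} (hj : HasJet f j) (hk : HasJet f k) : j = k := by
  obtain ⟨a1, a2⟩ := hj.deriv_eq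
  obtain ⟨b1, b2⟩ := hk.deriv_eq
  refine J2.ext ?_ ?_ ?_
  · rw [← hj.1, ← hk.1]
  · rw [← a1, ← b1]
  · rw [← a2, ← b2]

lemma hasJet_pow {f : ℝ → ℝ} {j : J2} (hf : HasJet f j) (n : ℕ) : HasJet (fun t => f t ^ n) (j ^ n) := by
  induction n with
  | zero => simpa using HasJet.const 1
  | succ n ih => simpa [pow_succ] using ih.mul hf

lemma hasJet_ofNat (n : ℕ) [n.AtLeastTwo] :
    HasJet (fun _ => (OfNat.ofNat n : ℝ)) (OfNat.ofNat n : J2) := by
  have := HasJet.const (OfNat.ofNat n : ℝ)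
  rwa [map_ofNat] at this

lemma hasJet_smul (r : ℝ) {f : ℝ → ℝ} {j : J2} (hf : HasJet f j) :
    HasJet (fun t => r • f t) (r • j) := HasJet.smul r hf

section poly
variable {x a b : ℝ → Fin 3 → ℝ} {jx ja jb : Fin 3 → J2}

lemma hasJet_dotG (hx : ∀ i, HasJet (fun t => x t i) (jx i)) (ha : ∀ i, HasJet (fun t => a t i) (ja i)) :
    HasJet (fun t => dotG (x t) (a t)) (dotG jx ja) :=
  (((hx 0).mul (ha 0)).add ((hx 1).mul (ha 1))).add ((hx 2).mul (ha 2))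

lemma hasJet_HbG (hx : ∀ i, HasJet (fun t => x t i) (jx i)) (ha : ∀ i, HasJet (fun t => a t i) (ja i)) :
    HasJet (fun t => HbG (x t) (a t)) (HbG jx ja) :=
  ((hx 0).mul ((ha 1).add (ha 2))).add (((hx 1).add (hx 2)).mul (ha 0))

lemma hasJet_FbG (hx : ∀ i, HasJet (fun t => x t i) (jx i)) (ha : ∀ i, HasJet (fun t => a t i) (ja i)) :
    HasJet (fun t => FbG (x t) (a t)) (FbG jx ja) :=
  ((hx 0).mul (ha 0)).neg.add (((hx 1).add (hx 2)).mul ((ha 1).add (ha 2)))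

lemma hasJet_PhG (hx : ∀ i, HasJet (fun t => x t i) (jx i)) (ha : ∀ i, HasJet (fun t => a t i) (ja i))
    (hb : ∀ i, HasJet (fun t => b t i) (jb i)) :
    HasJet (fun t => PhG (x t) (a t) (b t)) (PhG jx ja jb) := by
  unfold PhG
  have x0 := hx 0
  have x1 := hx 1
  have x2 := hx 2
  have a0 := ha 0
  have a1 := ha 1
  have b0 := hb 0
  have b1 := hb 1
  repeat' first
    | with_reducible exact x0
    | with_reducible exact x1
    | with_reducible exact x2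
    | with_reducible exact a0
    | with_reducible exact a1
    | with_reducible exact b0
    | with_reducible exact b1
    | exact hasJet_ofNat _
    | apply HasJet.add
    | apply HasJet.sub
    | apply HasJet.mul
    | apply HasJet.neg
    | apply hasJet_smul
    | apply hasJet_pow

lemma hasJet_SbG (κ ε T : ℝ) (hx : ∀ i, HasJet (fun t => x t i) (jx i))
    (ha : ∀ i, HasJet (fun t => a t i) (ja i)) (hb : ∀ i, HasJet (fun t => b t i) (jb i)) :
    HasJet (fun t => SbG κ ε T (x t) (a t) (b t)) (SbG κ ε T jx ja jb) := by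
  have h1 := hasJet_dotG hx ha
  have h2 := hasJet_dotG hx hb
  have h3 := hasJet_FbG ha hb
  have h4 := hasJet_HbG hx ha
  have h5 := hasJet_HbG hx hb
  have h6 := hasJet_FbG hx ha
  have h7 := hasJet_FbG hx hb
  have h8 := hasJet_PhG hx ha hb
  have a2 := ha 2
  have b2 := hb 2
  unfold SbG
  exact ((hasJet_smul _ (h1.mul h2)).add (hasJet_smul _ ((h1.mul b2).add (h2.mul a2)))).add
    (hasJet_smul _ ((h3.add (hasJet_smul _ ((h4.mul h7).add (h5.mul h6)))).add (hasJet_smul _ h8)))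

end poly

/-- the inverse norm of a curve with `|X|² = 1 + O(t³)`. -/
lemma hasJet_inv_sqrt {f : ℝ → ℝ} (hf : HasJet f 1) : HasJet (fun t => (√(f t))⁻¹) 1 := by
  obtain ⟨h0, f', h1, h2, h3⟩ := hf
  simp only [J2.one_a, J2.one_b, J2.one_c] at h0 h2 h3
  have hc : ContinuousAt f 0 := h1.self_of_nhds.continuousAt
  have hpos : ∀ᶠ t in 𝓝 (0 : ℝ), 0 < f t := by
    apply hc.eventually
    rw [h0]
    exact lt_mem_nhds one_pos
  refine ⟨by simp [h0], fun t => -(f' t / (2 * √(f t))) / (√(f t)) ^ 2, ?_, by simp [h0, h2], ?_⟩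
  · filter_upwards [h1, hpos] with t ht hp
    exact (ht.sqrt hp.ne').inv (Real.sqrt_ne_zero'.2 hp)
  · have hf0 : HasDerivAt f 0 0 := by simpa [h2] using h1.self_of_nhds
    have hs : HasDerivAt (fun t => √(f t)) 0 0 := by
      simpa using hf0.sqrt (by rw [h0]; norm_num)
    have hs0 : √(f 0) = 1 := by simp [h0]
    have e1 := (h3.div (hs.const_mul 2) (by rw [hs0]; norm_num)).neg
    have e2 := e1.div (hs.pow 2) (by simp [h0])
    refine e2.congr_deriv ?_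
    simp [h2]

/-! ### quaternions -/

lemma vecL_qimL (a : E3) : vecL (qimL a) = a := by
  rw [vecL_apply, qimL_apply]
  ext i; fin_cases i <;> rfl

lemma reL_qimL (a : E3) : reL (qimL a) = 0 := by
  rw [reL_apply, qimL_apply]

lemma qimL_re (a : E3) : (qimL a).re = 0 := rfl
lemma qimL_imI (a : E3) : (qimL a).imI = a 0 := rfl
lemma qimL_imJ (a : E3) : (qimL a).imJ = a 1 := rfl
lemma qimL_imK (a : E3) : (qimL a).imK = a 2 := rfl

lemma br_qimL (a b : E3) : br ((1/2 : ℝ) • qimL a) (qimL b) = qimL (cr a b) := by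
  unfold br
  ext
  · simp [qimL_re, qimL_imI, qimL_imJ, qimL_imK, cr]
    ring
  · simp [qimL_re, qimL_imI, qimL_imJ, qimL_imK, cr]
    ring
  · simp [qimL_re, qimL_imI, qimL_imJ, qimL_imK, cr]
    ring
  · simp [qimL_re, qimL_imI, qimL_imJ, qimL_imK, cr]
    ring

/-! ### smoothness -/

lemma contDiff_coord (i : Fin 3) : ContDiff ℝ 2 (fun x : E3 => x i) :=
  (EuclideanSpace.proj (𝕜 := ℝ) i).contDiff

lemma contDiff_Sb (κ ε T : ℝ) (a b : E3) : ContDiff ℝ 2 (fun x : E3 => Sb κ ε T x a b) := by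
  have h0 := contDiff_coord 0
  have h1 := contDiff_coord 1
  have h2 := contDiff_coord 2
  unfold Sb SbG dotG HbG FbG PhG
  simp only [smul_eq_mul]
  fun_prop

lemma Mf_apply (κ ε T δ : ℝ) (y a b : E3) :
    Mf κ ε T δ y a b = δ ^ 2 * ⟪a, b⟫ - δ ^ 4 * Sb κ ε T y a b := rfl

lemma NE_apply (κ ε T δ : ℝ) (x : E3) (p q : ℍ[ℝ]) :
    NE κ ε T δ x p q = reL p * reL q
      + 4 * (δ ^ 2 * ⟪vecL p, vecL q⟫ - δ ^ 4 * Sb κ ε T (nn x) (vecL p) (vecL q)) := rfl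

lemma contDiffAt_nn {x : E3} (hx : x ≠ 0) : ContDiffAt ℝ 2 nn x := by
  unfold nn
  exact ((contDiffAt_norm ℝ hx).inv (norm_ne_zero_iff.2 hx)).smul contDiffAt_id

lemma contDiffAt_NE (κ ε T δ : ℝ) {x : E3} (hx : x ≠ 0) : ContDiffAt ℝ 2 (NE κ ε T δ) x := by
  have hG : ContDiff ℝ 2 (fun y : E3 => reL.smulRight reL
      + (4 : ℝ) • (Mf κ ε T δ y).bilinearComp vecL vecL) := by
    refine contDiff_clm_apply_iff.2 fun p => contDiff_clm_apply_iff.2 fun q => ?_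
    have e : (fun y : E3 => (reL.smulRight reL + (4 : ℝ) • (Mf κ ε T δ y).bilinearComp vecL vecL) p q)
        = fun y => reL p * reL q
          + 4 * (δ ^ 2 * ⟪vecL p, vecL q⟫ - δ ^ 4 * Sb κ ε T y (vecL p) (vecL q)) := rfl
    rw [e]
    have := contDiff_Sb κ ε T (vecL p) (vecL q)
    fun_prop
  exact hG.contDiffAt.comp x (contDiffAt_nn hx)

/-! ### curves -/

/-- the curve `x + t u + t²/2 v`. -/
noncomputable def crv (x u v : E3) (t : ℝ) : E3 := x + t • u + (t ^ 2 / 2) • v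

lemma crv_apply (x u v : E3) (t : ℝ) (i : Fin 3) : crv x u v t i = x i + t * u i + t ^ 2 / 2 * v i := rfl

lemma hasDerivAt_crv (x u v : E3) (t : ℝ) : HasDerivAt (crv x u v) (u + t • v) t := by
  have h1 := ((hasDerivAt_id t).smul_const u).const_add x
  have h2 := (((hasDerivAt_id t).pow 2).div_const 2).smul_const v
  refine (h1.add h2).congr_deriv ?_
  simp

lemma hasDerivAt_crv' (u v : E3) (t : ℝ) : HasDerivAt (fun t : ℝ => u + t • v) v t := by
  have h1 := ((hasDerivAt_id t).smul_const v).const_add u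
  refine h1.congr_deriv ?_
  simp

lemma hasJet_crv (x u v : E3) (i : Fin 3) :
    HasJet (fun t => crv x u v t i) ⟨x i, u i, v i⟩ := HasJet.quad _ _ _

lemma hasJet_inner {a b : ℝ → E3} {ja jb : Fin 3 → J2} (ha : ∀ i, HasJet (fun t => a t i) (ja i))
    (hb : ∀ i, HasJet (fun t => b t i) (jb i)) :
    HasJet (fun t => ⟪a t, b t⟫) (dotG ja jb) := by
  have := hasJet_dotG ha hb
  convert this using 2 with t
  rw [real_inner_comm]
  simp [dotG, Fin.sum_univ_three, PiLp.inner_apply]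

lemma inner3 (a b : E3) : ⟪a, b⟫ = a 0 * b 0 + a 1 * b 1 + a 2 * b 2 := by
  rw [real_inner_comm]
  simp [Fin.sum_univ_three, PiLp.inner_apply]

lemma dot_Jx (κ : ℝ) {x X : E3} (hx : ‖x‖ = 1) (hX : ‖X‖ = 1) (hxX : ⟪x, X⟫ = 0) :
    dotG (Jx κ x X) (Jx κ x X) = 1 := by
  have e1 : x 0 * x 0 + x 1 * x 1 + x 2 * x 2 = 1 := by
    rw [← inner3, real_inner_self_eq_norm_sq, hx]; norm_num
  have e2 : X 0 * X 0 + X 1 * X 1 + X 2 * X 2 = 1 := by
    rw [← inner3, real_inner_self_eq_norm_sq, hX]; norm_num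
  have e3 : x 0 * X 0 + x 1 * X 1 + x 2 * X 2 = 0 := by
    rw [← inner3, hxX]
  ext
  · simp only [dotG, Jx, J2.add_a, J2.mul_a, J2.one_a]
    exact e1
  · simp only [dotG, Jx, J2.add_b, J2.mul_b, J2.one_b, jx1, PiLp.smul_apply, smul_eq_mul]
    linear_combination (2 * sg κ x) * e3
  · simp only [dotG, Jx, J2.add_c, J2.mul_c, J2.one_c, jx1, jx2, jX1, cr, PiLp.smul_apply,
      PiLp.add_apply, PiLp.sub_apply, PiLp.neg_apply, smul_eq_mul]
    simp only [Matrix.cons_val_zero, Matrix.cons_val_one, Matrix.cons_val]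
    linear_combination (2 * js1 κ x X) * e3 - (2 * sg κ x ^ 2) * e1 + (2 * sg κ x ^ 2) * e2

lemma dot_Jb (κ ε : ℝ) (x X a b : E3) :
    dotG (Jb κ ε x X a) (Jb κ ε x X b) = J2.C ⟪a, b⟫ := by
  have h := inner3 a b
  ext
  · simp only [dotG, Jb, J2.add_a, J2.mul_a, J2.C_a]
    rw [h]
  · simp only [dotG, Jb, J2.add_b, J2.mul_b, J2.C_b, jb1, PiLp.neg_apply, cr]
    simp only [Matrix.cons_val_zero, Matrix.cons_val_one, Matrix.cons_val]
    ring
  · simp only [dotG, Jb, J2.add_c, J2.mul_c, J2.C_c, jb1, jb2, PiLp.neg_apply, PiLp.sub_apply, cr]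
    simp only [Matrix.cons_val_zero, Matrix.cons_val_one, Matrix.cons_val]
    ring

lemma cr_neg (a b : E3) : cr a (-b) = - cr a b := by
  rw [← crL_apply, ← crL_apply, map_neg]

theorem cN_NE_of {κ ε T δ : ℝ} {x X : E3} (hx : ‖x‖ = 1) (hX : ‖X‖ = 1) (hxX : ⟪x, X⟫ = 0)
    (H4 : Gam (hE κ) x (jx1 κ x X) (jx1 κ x X) = - jx2 κ x X ∧
      AE κ ε x (jx1 κ x X) = (1/2 : ℝ) • qimL (jw0 κ ε x X) ∧
      fderiv ℝ (AE κ ε) x (jx1 κ x X) (jx1 κ x X) + AE κ ε x (jx2 κ x X) = (1/2 : ℝ) • qimL (jw1 κ ε x X))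
    (a b : E3) :
    cN1 (NE κ ε T δ) (AE κ ε) x (jx1 κ x X) (qimL a) (qimL b) = -4 * δ ^ 4 * S1 κ ε T x X a b ∧
    cN2 (hE κ) (NE κ ε T δ) (AE κ ε) x (jx1 κ x X) (jx1 κ x X) (qimL a) (qimL b)
      = -4 * δ ^ 4 * S2 κ ε T x X a b := by
  obtain ⟨hG, hA, hdA⟩ := H4
  have hx0 : x ≠ 0 := by
    rintro rfl
    simp at hx
  have hbr1 : ∀ c : E3, - br (AE κ ε x (jx1 κ x X)) (qimL c) = qimL (jb1 κ ε x X c) := by
    intro c
    rw [hA, br_qimL, jb1, map_neg]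
  have hbr2 : ∀ c : E3, br (AE κ ε x (jx1 κ x X)) (br (AE κ ε x (jx1 κ x X)) (qimL c))
      - br (fderiv ℝ (AE κ ε) x (jx1 κ x X) (jx1 κ x X)
        - AE κ ε x (Gam (hE κ) x (jx1 κ x X) (jx1 κ x X))) (qimL c) = qimL (jb2 κ ε x X c) := by
    intro c
    rw [hG, map_neg, sub_neg_eq_add, hdA, hA, br_qimL, br_qimL, br_qimL, jb2, jb1, cr_neg, ← map_sub]
    congr 1
    abel
  have hP : ∀ c : E3, ∀ t : ℝ, HasDerivAt (fun t => qimL (crv c (jb1 κ ε x X c) (jb2 κ ε x X c) t))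
      (qimL (jb1 κ ε x X c + t • jb2 κ ε x X c)) t := fun c t =>
    qimL.hasFDerivAt.comp_hasDerivAt t (hasDerivAt_crv _ _ _ t)
  have hP' : ∀ c : E3, HasDerivAt (fun t : ℝ => qimL (jb1 κ ε x X c + t • jb2 κ ε x X c))
      (qimL (jb2 κ ε x X c)) 0 := fun c =>
    qimL.hasFDerivAt.comp_hasDerivAt 0 (hasDerivAt_crv' _ _ 0)
  have key := Pool.Agent.Helper8.HP.cN2_curve (h := hE κ) (A := AE κ ε) (contDiffAt_NE κ ε T δ hx0)
    (jx1 κ x X) (qimL a) (qimL b) (X := crv x (jx1 κ x X) (jx2 κ x X)) (X' := fun t => jx1 κ x X + t • jx2 κ x X)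
    (P := fun t => qimL (crv a (jb1 κ ε x X a) (jb2 κ ε x X a) t))
    (P' := fun t => qimL (jb1 κ ε x X a + t • jb2 κ ε x X a))
    (Q := fun t => qimL (crv b (jb1 κ ε x X b) (jb2 κ ε x X b) t))
    (Q' := fun t => qimL (jb1 κ ε x X b + t • jb2 κ ε x X b))
    (by simp [crv]) (Eventually.of_forall fun t => hasDerivAt_crv _ _ _ t) (by simp)
    (by rw [hG, neg_neg]; exact hasDerivAt_crv' _ _ 0)
    (by simp [crv]) (Eventually.of_forall fun t => hP a t) (by rw [hbr1]; simp)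
    (by rw [hbr2]; exact hP' a)
    (by simp [crv]) (Eventually.of_forall fun t => hP b t) (by rw [hbr1]; simp)
    (by rw [hbr2]; exact hP' b)
  -- the direct computation
  have hJx : ∀ i, HasJet (fun t => crv x (jx1 κ x X) (jx2 κ x X) t i) (Jx κ x X i) :=
    fun i => hasJet_crv _ _ _ i
  have hJb : ∀ c : E3, ∀ i, HasJet (fun t => crv c (jb1 κ ε x X c) (jb2 κ ε x X c) t i) (Jb κ ε x X c i) :=
    fun c i => hasJet_crv _ _ _ i
  have hinv : HasJet (fun t => ‖crv x (jx1 κ x X) (jx2 κ x X) t‖⁻¹) 1 := by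
    have h1 := hasJet_inner hJx hJx
    rw [dot_Jx κ hx hX hxX] at h1
    have h2 := hasJet_inv_sqrt h1
    convert h2 using 2 with t
    rw [real_inner_self_eq_norm_sq, Real.sqrt_sq (norm_nonneg _)]
  have hnn : ∀ i, HasJet (fun t => nn (crv x (jx1 κ x X) (jx2 κ x X) t) i) (Jx κ x X i) := by
    intro i
    have h1 := hinv.mul (hJx i)
    rw [one_mul] at h1
    exact h1
  have hS := hasJet_SbG κ ε T hnn (hJb a) (hJb b)
  have hI := hasJet_inner (hJb a) (hJb b)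
  rw [dot_Jb] at hI
  have hdir := ((hI.smul (δ ^ 2)).sub (hS.smul (δ ^ 4))).smul 4
  have he : (fun t => NE κ ε T δ (crv x (jx1 κ x X) (jx2 κ x X) t)
      (qimL (crv a (jb1 κ ε x X a) (jb2 κ ε x X a) t)) (qimL (crv b (jb1 κ ε x X b) (jb2 κ ε x X b) t)))
      = fun t => 4 * (δ ^ 2 * ⟪crv a (jb1 κ ε x X a) (jb2 κ ε x X a) t, crv b (jb1 κ ε x X b) (jb2 κ ε x X b) t⟫
        - δ ^ 4 * SbG κ ε T (fun i => nn (crv x (jx1 κ x X) (jx2 κ x X) t) i)
          (fun i => crv a (jb1 κ ε x X a) (jb2 κ ε x X a) t i)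
          (fun i => crv b (jb1 κ ε x X b) (jb2 κ ε x X b) t i)) := by
    funext t
    rw [NE_apply, reL_qimL, reL_qimL, vecL_qimL, vecL_qimL, Sb]
    ring
  rw [he] at key
  have hu := hasJet_unique key hdir
  have hb := congrArg J2.b hu
  have hc := congrArg J2.c hu
  simp only [J2.smul_b, J2.sub_b, J2.C_b] at hb
  simp only [J2.smul_c, J2.sub_c, J2.C_c] at hc
  refine ⟨?_, ?_⟩
  · rw [hb, S1]; ring
  · rw [hc, S2]; ring

/-- HOPF-Q5c, given the statement of HOPF-Q4. -/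
theorem cN_NE (H4 : ∀ {κ ε : ℝ}, |κ| ≤ 1/10 → ∀ {x X : E3}, ‖x‖ = 1 → ‖X‖ = 1 → ⟪x, X⟫ = 0 →
      Gam (hE κ) x (jx1 κ x X) (jx1 κ x X) = - jx2 κ x X ∧
      AE κ ε x (jx1 κ x X) = (1/2 : ℝ) • qimL (jw0 κ ε x X) ∧
      fderiv ℝ (AE κ ε) x (jx1 κ x X) (jx1 κ x X) + AE κ ε x (jx2 κ x X) = (1/2 : ℝ) • qimL (jw1 κ ε x X))
    {κ ε T δ : ℝ} (hκ : |κ| ≤ 1/10) {x X : E3} (hx : ‖x‖ = 1) (hX : ‖X‖ = 1) (hxX : ⟪x, X⟫ = 0)
    (a b : E3) :
    cN1 (NE κ ε T δ) (AE κ ε) x (jx1 κ x X) (qimL a) (qimL b) = -4 * δ ^ 4 * S1 κ ε T x X a b ∧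
    cN2 (hE κ) (NE κ ε T δ) (AE κ ε) x (jx1 κ x X) (jx1 κ x X) (qimL a) (qimL b)
      = -4 * δ ^ 4 * S2 κ ε T x X a b :=
  cN_NE_of hx hX hxX (H4 hκ hx hX hxX) a b

end Pool.Agent.Helper39.HP
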